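import Mathlib.Topology.Homeomorph.Defs
import Mathlib.Topology.Constructions
import Mathlib.Topology.Order
import Mathlib.Computability.PartrecCode
import Mathlib.Computability.TuringDegree

/-!
The Turing degrees below the halting set, and homeomorphisms of Cantor space that induce
automorphisms of them.
-/

namespace Pool.Agent.MP_68d28f_lc

/-- Cantor space, with the product topology. -/
abbrev Cantor : Type := ℕ → Bool

/-- A real used as an oracle. -/
def orc (a : Cantor) : ℕ →. ℕ := fun n => Part.some (a n).toNat

/-- `a` is Turing reducible to `x`. -/
def LeT (a x : Cantor) : Prop := TuringReducible (orc a) (orc x)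

open Classical in
/-- The halting set. -/
noncomputable def halt : Cantor :=
  fun m => decide ((Denumerable.ofNat Nat.Partrec.Code m).eval m).Dom

/-- The Turing degree of a real. -/
def deg (x : Cantor) : TuringDegree := toAntisymmetrization TuringReducible (orc x)

/-- The degrees of reals below the halting set, ordered by Turing reducibility. -/
abbrev D2 : Type := {d : TuringDegree // (∃ x, d = deg x) ∧ d ≤ deg halt}

/-- The homeomorphism `H` maps the reals below the halting set onto themselves and induces `π` on
their degrees. -/
def Induces (H : Cantor ≃ₜ Cantor) (π : D2 ≃o D2) : Prop :=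
  (∀ x, LeT (H x) halt ↔ LeT x halt) ∧ ∀ (d : D2) (x : Cantor), d.1 = deg x → (π d).1 = deg (H x)

/-- The string `σ` is an initial segment of the real `x`. -/
def Pre (σ : List Bool) (x : Cantor) : Prop := ∀ i < σ.length, σ.getD i false = x i

open Classical in
/-- The code of a map: the set of pairs `(σ, τ)` such that `F` maps extensions of `σ` to extensions
of `τ`. -/
noncomputable def code (F : Cantor → Cantor) : Cantor :=
  fun n => decide (∃ σ τ : List Bool, n = Encodable.encode (σ, τ) ∧ ∀ x, Pre σ x → Pre τ (F x))

/-- The oracles `O` compute a meager set that contains every real below the halting set: they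
compute a sequence of dense sets of strings `{f (σ, n) : σ}`, and each such real has no initial
segment in one of these sets. -/
def Covers (O : Set (ℕ →. ℕ)) : Prop :=
  ∃ f : List Bool × ℕ → List Bool, ComputableIn O f ∧ (∀ σ n, σ <+: f (σ, n)) ∧
    ∀ x, LeT x halt → ∃ n, ∀ σ, ¬ Pre (f (σ, n)) x

end Pool.Agent.MP_68d28f_lc
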