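import Mathlib.Algebra.Order.Ring.Star
import Mathlib.Combinatorics.Matroid.Basic
import Mathlib.Topology.AlexandrovDiscrete
import Mathlib.Topology.Baire.LocallyCompactRegular
import Mathlib.Topology.Baire.BaireMeasurable
import Mathlib.Topology.UniformSpace.Uniformizable
import Pool.Agent.MP_68d28f_lc.Defs
import Pool.Agent.MP_b427ce_lc.Basic

-- ======== part 0: formerly Pool.Agent.MP_68d28f_lc.Basic
section MrgPart0

/-!
Initial segments, approximations of maps on Cantor space, and a universal family of approximations.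
-/

namespace Pool.Agent.MP_68d28f_lc

open Encodable Nat.Partrec Pool.Agent.MP_b427ce_lc Set Filter Topology

lemma encode_bool (b : Bool) : encode b = b.toNat := by cases b <;> rfl

lemma cin_iff {O : Set (ℕ →. ℕ)} {a : Cantor} : RecursiveIn O (orc a) ↔ ComputableIn O a := by
  unfold ComputableIn RecursiveIn
  have : (fun n => Part.bind (decode (α := ℕ) n) fun m => (orc a m).map encode) =
      fun n => Part.bind (decode (α := ℕ) n) fun m => (Part.some (a m)).map encode := by
    funext n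
    simp [orc, encode_bool]
  rw [this]

lemma leT_iff {a x : Cantor} : LeT a x ↔ ComputableIn {orc x} a := cin_iff

lemma LeT.refl (x : Cantor) : LeT x x := TuringReducible.refl _

lemma LeT.trans {a b c : Cantor} (h : LeT a b) (h' : LeT b c) : LeT a c :=
  TuringReducible.trans h h'

lemma c_mem {O : Set (ℕ →. ℕ)} {x : Cantor} (h : orc x ∈ O) : ComputableIn O x :=
  cin_iff.1 (RecursiveIn.oracle _ h)

lemma c_self (x : ℕ → Bool) : ComputableIn {orc x} x := c_mem rfl

lemma c_empty {α β : Type} [Primcodable α] [Primcodable β] {f : α → β} {O : Set (ℕ →. ℕ)}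
    (h : ComputableIn ∅ f) : ComputableIn O f := RecursiveIn.mono (empty_subset _) h

@[fun_prop] lemma c_min {α : Type} [Primcodable α] {O : Set (ℕ →. ℕ)} {f g : α → ℕ}
    (hf : ComputableIn O f) (hg : ComputableIn O g) : ComputableIn O fun a => min (f a) (g a) :=
  c_prim₂ Primrec.nat_min hf hg

@[fun_prop] lemma c_xor {α : Type} [Primcodable α] {O : Set (ℕ →. ℕ)} {f g : α → Bool}
    (hf : ComputableIn O f) (hg : ComputableIn O g) : ComputableIn O fun a => xor (f a) (g a) :=
  c_prim₂ (Primrec.dom_bool₂ xor) hf hg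

/-- Search for a witness of any type. -/
lemma exists_find {α β : Type} [Primcodable α] [Primcodable β] [Inhabited β] {O : Set (ℕ →. ℕ)}
    {p : α → β → Bool} (hp : ComputableIn O fun x : α × β => p x.1 x.2)
    (h : ∀ a, ∃ b, p a b = true) : ∃ f : α → β, ComputableIn O f ∧ ∀ a, p a (f a) = true := by
  have h1 : ∀ a, ∃ n, p a ((decode n : Option β).getD default) = true := fun a =>
    (h a).elim fun b hb => ⟨encode b, by simpa using hb⟩
  have h2 := c_find (O := O) (p := fun a n => p a ((decode n : Option β).getD default))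
    (c_comp hp (g := fun x : α × ℕ => (x.1, (decode x.2 : Option β).getD default))
      (by fun_prop)) h1
  exact ⟨fun a => (decode (Nat.find (h1 a)) : Option β).getD default,
    c_optGetD (c_decode h2) (c_const _), fun a => Nat.find_spec (h1 a)⟩

open Classical in
/-- The halting set decides existential questions. -/
lemma c_exists {α β : Type} [Primcodable α] [Primcodable β] [Inhabited β] {O : Set (ℕ →. ℕ)}
    (hO : orc halt ∈ O) {p : α → β → Bool} (hp : ComputableIn ∅ fun x : α × β => p x.1 x.2) :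
    ComputableIn O fun a => decide (∃ b, p a b = true) := by
  have h1 : REPred fun a => ∃ n, p a ((decode n : Option β).getD default) = true :=
    re_of_exists (toC (c_comp hp
      (g := fun x : α × ℕ => (x.1, (decode x.2 : Option β).getD default)) (by fun_prop)))
  obtain ⟨c, hc⟩ := Code.exists_code.1 h1
  refine cin_of_eq (f := fun a => halt (encode (Code.curry (c.comp Code.left) (encode a))))
    (c_comp (c_mem hO) (by fun_prop)) fun a => ?_
  simp only [halt, Denumerable.ofNat_encode, Code.eval_curry, decide_eq_decide]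
  have : (c.comp Code.left).eval (Nat.pair (encode a)
      (encode (Code.curry (c.comp Code.left) (encode a)))) = c.eval (encode a) := by
    simp [Code.eval]
  rw [this, hc]
  simp only [encodek, Part.coe_some, Part.bind_some, Part.map_Dom, Part.assert]
  exact ⟨fun ⟨⟨n, h⟩, _⟩ => ⟨_, h⟩, fun ⟨b, h⟩ => ⟨⟨encode b, by simpa using h⟩, trivial⟩⟩

/-- Agreement below `n`. -/
def Ag (n : ℕ) (x y : Cantor) : Prop := ∀ i < n, x i = y i

/-- A string followed by zeros. -/
def ext (l : List Bool) : Cantor := fun i => l.getD i false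

lemma Ag.refl (n : ℕ) (x : Cantor) : Ag n x x := fun _ _ => rfl

lemma Ag.symm {n : ℕ} {x y : Cantor} (h : Ag n x y) : Ag n y x := fun i hi => (h i hi).symm

lemma Ag.trans {n : ℕ} {x y z : Cantor} (h : Ag n x y) (h' : Ag n y z) : Ag n x z :=
  fun i hi => (h i hi).trans (h' i hi)

lemma Ag.mono {m n : ℕ} {x y : Cantor} (h : Ag n x y) (hm : m ≤ n) : Ag m x y :=
  fun i hi => h i (by omega)

lemma pre_ext (σ : List Bool) : Pre σ (ext σ) := fun _ _ => rfl

lemma pre_pre (x : Cantor) (n : ℕ) : Pre (pre x n) x := fun _ hi =>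
  getD_pre x (by simpa using hi) _

lemma Pre.ag {σ : List Bool} {x : Cantor} (h : Pre σ x) : Ag σ.length (ext σ) x := h

lemma Pre.of_ag {σ : List Bool} {x y : Cantor} (h : Pre σ x) (h' : Ag σ.length x y) : Pre σ y :=
  fun i hi => (h i hi).trans (h' i hi)

lemma Pre.of_le {σ τ : List Bool} {x : Cantor} (h : Pre τ x) (h' : σ <+: τ) : Pre σ x :=
  fun i hi => (getD_of_isPrefix h' hi _).symm.trans (h i (hi.trans_le h'.length_le))

lemma Pre.eq {σ : List Bool} {x : Cantor} (h : Pre σ x) : σ = pre x σ.length := eq_pre_of rfl h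

lemma Pre.le {σ τ : List Bool} {x : Cantor} (h : Pre σ x) (h' : Pre τ x)
    (hl : σ.length ≤ τ.length) : σ <+: τ := by
  rw [h.eq, h'.eq]
  exact pre_isPrefix x hl

lemma Pre.take {σ : List Bool} {x : Cantor} (h : Pre σ x) {j : ℕ} (hj : j ≤ σ.length) :
    σ.take j = pre x j := by
  rw [h.eq]
  exact take_pre x hj

lemma Pre.snoc {σ : List Bool} {x : Cantor} (h : Pre σ x) {b : Bool} (hb : b = x σ.length) :
    Pre (σ ++ [b]) x := by
  rw [hb]
  nth_rewrite 1 [h.eq]
  rw [← pre_succ]
  exact pre_pre _ _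

lemma box_mem_nhds (x : Cantor) (n : ℕ) : {y | Ag n y x} ∈ 𝓝 x := by
  have : {y : Cantor | Ag n y x} = ⋂ i ∈ Finset.range n, {y : Cantor | y i = x i} := by
    ext y; simp [Ag]
  rw [this, Filter.biInter_finset_mem]
  intro i _
  exact ((isOpen_discrete ({x i} : Set Bool)).preimage
    (continuous_apply (A := fun _ : ℕ => Bool) i)).mem_nhds (Set.mem_singleton _)

lemma exists_box {x : Cantor} {U : Set Cantor} (hU : U ∈ 𝓝 x) : ∃ n, ∀ y, Ag n y x → y ∈ U := by
  by_contra h
  push Not at h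
  choose y hy hyU using h
  have : Tendsto y atTop (𝓝 x) := by
    rw [tendsto_pi_nhds]
    intro i
    refine tendsto_const_nhds.congr' ?_
    filter_upwards [eventually_gt_atTop i] with n hn using (hy n i hn).symm
  obtain ⟨n, hn⟩ := (this.eventually hU).exists
  exact hyU n hn

lemma isOpen_of_box {U : Set Cantor} (h : ∀ x ∈ U, ∃ n, ∀ y, Ag n y x → y ∈ U) : IsOpen U :=
  isOpen_iff_mem_nhds.2 fun x hx => (h x hx).elim fun n hn =>
    mem_of_superset (box_mem_nhds x n) hn

lemma isOpen_box (x : Cantor) (n : ℕ) : IsOpen {y | Ag n y x} :=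
  isOpen_of_box fun _ hy => ⟨n, fun _ hz => hz.trans hy⟩

lemma isOpen_pre (σ : List Bool) : IsOpen {y | Pre σ y} :=
  isOpen_of_box fun _ hy => ⟨σ.length, fun _ hz => Pre.of_ag hy hz.symm⟩

lemma exists_cone {W : Set Cantor} (hW : IsOpen W) (hne : W.Nonempty) :
    ∃ σ, ∀ y, Pre σ y → y ∈ W := by
  obtain ⟨x, hx⟩ := hne
  obtain ⟨n, hn⟩ := exists_box (hW.mem_nhds hx)
  exact ⟨pre x n, fun y hy => hn y fun i hi =>
    (hy i (by simpa using hi)).symm.trans (getD_pre x hi _)⟩

/-- Uniform continuity. -/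
lemma unif {F : Cantor → Cantor} (hF : Continuous F) (n : ℕ) :
    ∃ k, ∀ x y, Ag k x y → Ag n (F x) (F y) := by
  let U : ℕ → Set Cantor := fun k => {x | ∀ y, Ag k y x → Ag n (F y) (F x)}
  have hU : ∀ k, IsOpen (U k) := fun k => isOpen_of_box fun x hx =>
    ⟨k, fun x' hx' y hy => (hx y (hy.trans hx')).trans (hx x' hx').symm⟩
  obtain ⟨k, hk⟩ := isCompact_univ.elim_directed_cover U hU (fun x _ => mem_iUnion.2
    (exists_box (hF.continuousAt.preimage_mem_nhds (box_mem_nhds (F x) n))))
    (directed_of_isDirected_le fun i j hij x hx y hy => hx y (hy.mono hij))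
  exact ⟨k, fun x y h => hk (mem_univ y) x h⟩

/-- A function of finitely many bits is computable. -/
lemma c_table (j : ℕ) : ∀ φ : Cantor → Bool, (∀ x y, Ag j x y → φ x = φ y) →
    ComputableIn ∅ fun σ => φ (ext σ) := by
  induction j with
  | zero => exact fun φ h => cin_of_eq (c_const (φ fun _ => false)) fun σ => h _ _ fun _ hi =>
      absurd hi (Nat.not_lt_zero _)
  | succ j ih =>
    intro φ h
    have h1 : ∀ b, ComputableIn ∅ fun σ => φ (Function.update (ext σ) j b) := fun b =>
      ih (fun x => φ (Function.update x j b)) fun x y hxy => h _ _ fun i hi => by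
        rcases eq_or_ne i j with rfl | hne
        · simp
        · simp [hne, hxy i (by omega)]
    have ht := h1 true
    have hf := h1 false
    refine cin_of_eq (f := fun σ : List Bool => cond (σ.getD j false)
      (φ (Function.update (ext σ) j true)) (φ (Function.update (ext σ) j false)))
      (c_cond (by fun_prop) ht hf) fun σ => ?_
    have : ∀ b, σ.getD j false = b → Function.update (ext σ) j b = ext σ := fun b hb =>
      Function.update_eq_self_iff.2 hb.symm
    cases e : σ.getD j false <;> simp [this _ e]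

/-- `g` approximates `G` soundly on `U`. -/
def Snd (g : List Bool → List Bool) (U : Set Cantor) (G : Cantor → Cantor) : Prop :=
  ∀ y ∈ U, ∀ σ, Pre σ y → Pre (g σ) (G y)

/-- The approximations converge at `y`. -/
def Cv (g : List Bool → List Bool) (y : Cantor) : Prop :=
  ∀ n, ∃ k, ∀ σ, Pre σ y → k ≤ σ.length → n ≤ (g σ).length

/-- `G` is computed on `U`, at most points in the sense of `𝓕`. -/
def GC (O : Set (ℕ →. ℕ)) (𝓕 : Filter Cantor) (U : Set Cantor) (G : Cantor → Cantor) : Prop :=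
  ∃ g, ComputableIn O g ∧ Snd g U G ∧ ∀ᶠ y in 𝓕, y ∈ U → Cv g y

section GC

variable {O : Set (ℕ →. ℕ)} {𝓕 : Filter Cantor} {U V : Set Cantor} {G G' : Cantor → Cantor}

lemma Cv.comp {g g' : List Bool → List Bool} {y z : Cantor} (h' : Cv g' z) (h : Cv g y)
    (hs : ∀ σ, Pre σ y → Pre (g σ) z) : Cv (fun σ => g' (g σ)) y := fun n =>
  let ⟨k', hk'⟩ := h' n
  let ⟨k, hk⟩ := h k'
  ⟨k, fun σ h1 h2 => hk' _ (hs σ h1) (hk σ h1 h2)⟩

lemma GC.comp (h' : GC O 𝓕 V G') (h : GC O 𝓕 U G) (hm : MapsTo G U V) (ht : Tendsto G 𝓕 𝓕) :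
    GC O 𝓕 U fun y => G' (G y) := by
  obtain ⟨g', a1, a2, a3⟩ := h'
  obtain ⟨g, b1, b2, b3⟩ := h
  refine ⟨fun σ => g' (g σ), c_comp a1 b1, fun y hy σ hσ => a2 _ (hm hy) _ (b2 y hy σ hσ), ?_⟩
  filter_upwards [ht.eventually a3, b3] with y h1 h2 hy
  exact (h1 (hm hy)).comp (h2 hy) (b2 y hy)

lemma GC.congr (h : GC O 𝓕 V G) (hU : U ⊆ V) (he : ∀ y ∈ U, G y = G' y) : GC O 𝓕 U G' := by
  obtain ⟨g, b1, b2, b3⟩ := h
  exact ⟨g, b1, fun y hy σ hσ => he y hy ▸ b2 y (hU hy) σ hσ, b3.mono fun y h hy => h (hU hy)⟩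

lemma GC.weak (h : GC ∅ ⊤ univ G) : GC O 𝓕 U G := by
  obtain ⟨g, b1, b2, b3⟩ := h
  exact ⟨g, c_empty b1, fun y _ => b2 y trivial, (b3.filter_mono le_top).mono fun y h _ =>
    h trivial⟩

lemma GC.comp_top (h' : GC O ⊤ univ G') (h : GC O ⊤ univ G) : GC O ⊤ univ fun y => G' (G y) :=
  h'.comp h (mapsTo_univ _ _) tendsto_top

/-- The join of two reals. -/
def jn (x p : Cantor) : Cantor := fun n => cond (eqB (n % 2) 0) (x (n / 2)) (p (n / 2))

lemma GC.pair (h : GC O 𝓕 U G) (h' : GC O 𝓕 U G') : GC O 𝓕 U fun y => jn (G y) (G' y) := by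
  obtain ⟨g', a1, a2, a3⟩ := h'
  obtain ⟨g, b1, b2, b3⟩ := h
  refine ⟨fun σ => pre (jn (ext (g σ)) (ext (g' σ))) (2 * min (g σ).length (g' σ).length),
    by unfold jn ext; fun_prop, fun y hy σ hσ i hi => ?_, ?_⟩
  · rw [length_pre] at hi
    rw [getD_pre _ hi]
    simp only [jn, (b2 y hy σ hσ).ag (i / 2) (by omega), (a2 y hy σ hσ).ag (i / 2) (by omega)]
  · filter_upwards [a3, b3] with y h1 h2 hy n
    obtain ⟨k', hk'⟩ := h1 hy n
    obtain ⟨k, hk⟩ := h2 hy n
    refine ⟨max k k', fun σ c1 c2 => ?_⟩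
    have := hk σ c1 (by omega)
    have := hk' σ c1 (by omega)
    rw [length_pre]
    omega

lemma GC.loc (h1 : ∀ i x y, Ag (2 * i + 2) x y → G x i = G y i)
    (h2 : ComputableIn ∅ fun p : List Bool × ℕ => G (ext p.1) p.2) : GC ∅ ⊤ univ G := by
  refine ⟨fun σ => pre (G (ext σ)) (σ.length / 2), c_pre (f := fun σ => G (ext σ)) h2
    (by fun_prop), fun y _ σ hσ i hi => ?_, Eventually.of_forall fun y _ n =>
      ⟨2 * n, fun σ _ h => by rw [length_pre]; omega⟩⟩
  rw [length_pre] at hi
  rw [getD_pre _ hi]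
  exact h1 i _ _ (hσ.ag.mono (by omega))

lemma GC.glue {β : Cantor → Bool} {j : ℕ} (hβ : ∀ x y, Ag j x y → β x = β y)
    (h : ∀ b, GC O 𝓕 (U ∩ {y | β y = b}) G) : GC O 𝓕 U G := by
  obtain ⟨g', a1, a2, a3⟩ := h true
  obtain ⟨g, b1, b2, b3⟩ := h false
  have ht : ComputableIn O fun σ => β (ext σ) := c_empty (c_table j β hβ)
  have he : ∀ σ y, Pre σ y → j ≤ σ.length → β (ext σ) = β y := fun σ y h1 h2 =>
    hβ _ _ (h1.ag.mono h2)
  refine ⟨fun σ => cond (leB j σ.length) (cond (β (ext σ)) (g' σ) (g σ)) [],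
    c_cond (by fun_prop) (c_cond ht a1 b1) (c_const _), fun y hy σ hσ => ?_, ?_⟩
  · cases e : leB j σ.length
    · exact fun i hi => by simp [e] at hi
    · simp only [e, cond_true, he σ y hσ (leB_iff.1 e)]
      cases e' : β y
      · exact b2 y ⟨hy, e'⟩ σ hσ
      · exact a2 y ⟨hy, e'⟩ σ hσ
  · filter_upwards [a3, b3] with y h1 h2 hy n
    cases e' : β y
    · obtain ⟨k, hk⟩ := h2 ⟨hy, e'⟩ n
      refine ⟨max k j, fun σ c1 c2 => ?_⟩
      simpa [leB_iff.2 (show j ≤ σ.length by omega), he σ y c1 (by omega), e'] using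
        hk σ c1 (by omega)
    · obtain ⟨k, hk⟩ := h1 ⟨hy, e'⟩ n
      refine ⟨max k j, fun σ c1 c2 => ?_⟩
      simpa [leB_iff.2 (show j ≤ σ.length by omega), he σ y c1 (by omega), e'] using
        hk σ c1 (by omega)

lemma GC.leT (h : GC ∅ ⊤ univ G) (y : ℕ → Bool) : LeT (G y) y := by
  obtain ⟨g, b1, b2, b3⟩ := h
  have hg : ComputableIn {orc y} g := c_empty b1
  have hy := c_self y
  obtain ⟨f, f1, f2⟩ := exists_find (O := {orc y})
    (p := fun (i k : ℕ) => leB (i + 1) (g (pre y k)).length) (by fun_prop) fun i =>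
      (eventually_top.1 b3 y trivial (i + 1)).elim fun k hk =>
        ⟨k, leB_iff.2 (hk _ (pre_pre y k) (by simp))⟩
  exact leT_iff.2 (cin_of_eq (f := fun i => (g (pre y (f i))).getD i false) (by fun_prop)
    fun i => b2 y trivial _ (pre_pre y _) i (leB_iff.1 (f2 i)))

end GC

/-- One step of a simulation. -/
def stp (r : Option ℕ) (o : List Bool) : List Bool := cond r.isSome (o ++ [eqB (r.getD 0) 1]) o

/-- The simulation of the program `c` on the finite oracles `s j`. -/
def sim (c : Code) (s : ℕ → List Bool) (n : ℕ) : List Bool :=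
  natIter [] (fun k o => stp (Code.evaln k c (Nat.pair (encode (s k.unpair.1)) o.length)) o) n

/-- The universal family of approximations. -/
def ap (c : Code) (σ : List Bool) : List Bool := sim c (fun j => σ.take j) σ.length

@[fun_prop] lemma c_ap {α : Type} [Primcodable α] {O : Set (ℕ →. ℕ)} {f : α → Code}
    {g : α → List Bool} (hf : ComputableIn O f) (hg : ComputableIn O g) :
    ComputableIn O fun a => ap (f a) (g a) := by
  unfold ap sim stp; fun_prop

lemma sim_succ (c : Code) (s : ℕ → List Bool) (k : ℕ) : sim c s (k + 1) =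
    stp (Code.evaln k c (Nat.pair (encode (s k.unpair.1)) (sim c s k).length)) (sim c s k) := rfl

lemma sim_congr (c : Code) {s s' : ℕ → List Bool} (n : ℕ) (h : ∀ j < n, s j = s' j) :
    sim c s n = sim c s' n := by
  induction n with
  | zero => rfl
  | succ n ih =>
    rw [sim_succ, sim_succ, ih fun j hj => h j (by omega),
      h _ (Nat.lt_succ_of_le (Nat.unpair_left_le n))]

lemma sim_mono (c : Code) (s : ℕ → List Bool) {m n : ℕ} (h : m ≤ n) : sim c s m <+: sim c s n := by
  induction h with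
  | refl => exact List.prefix_rfl
  | step _ ih =>
    refine ih.trans ?_
    rw [sim_succ, stp]
    cases Option.isSome _
    · exact List.prefix_rfl
    · exact List.prefix_append _ _

lemma ap_eq (c : Code) {σ : List Bool} {y : Cantor} (h : Pre σ y) :
    ap c σ = sim c (pre y) σ.length := sim_congr c _ fun _ hj => h.take hj.le

lemma ap_mono (c : Code) {σ τ : List Bool} (h : σ <+: τ) : ap c σ <+: ap c τ := by
  rw [ap_eq c (pre_ext τ), ap_eq c ((pre_ext τ).of_le h)]
  exact sim_mono _ _ h.length_le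

lemma functional_orc (x : Cantor) : Functional x (orc x) := by
  refine ⟨fun l n => ((l[n]?.map Bool.toNat : Option ℕ) : Part ℕ), ?_, ?_, ?_⟩
  · refine Computable.ofOption (f := fun p : List Bool × ℕ => p.1[p.2]?.map Bool.toNat) ?_
    exact (Primrec.option_map (Primrec.list_getElem?.comp Primrec.fst Primrec.snd)
      ((Primrec.dom_bool Bool.toNat).comp Primrec.snd).to₂).to_comp
  · intro l l' n v hl hv
    obtain ⟨t, rfl⟩ := hl
    simp only [Part.mem_coe, Option.mem_def, Option.map_eq_some_iff] at hv ⊢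
    obtain ⟨b, hb, rfl⟩ := hv
    refine ⟨b, ?_, rfl⟩
    rw [List.getElem?_append_left (List.getElem?_eq_some_iff.1 hb).1, hb]
  · intro n v hv
    refine ⟨n + 1, ?_⟩
    simp only [orc, Part.mem_some_iff] at hv
    simp [pre, hv]

lemma LeT.exists_ap {a y : Cantor} (h : LeT a y) :
    ∃ c, (∀ σ, Pre σ y → Pre (ap c σ) a) ∧ Cv (ap c) y := by
  obtain ⟨G, h1, h2, h3⟩ := functional_of_recursiveIn y (functional_orc y)
    (RecursiveIn.iff_nat.1 h)
  obtain ⟨c, hc⟩ := Code.exists_code.1 h1
  have e : ∀ l n, c.eval (Nat.pair (encode l) n) = G l n := fun l n => by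
    rw [hc]; simp [Part.map_id']
  have h4 : ∀ n, ∃ j, (a n).toNat ∈ G (pre y j) n := fun n => h3 n _ (by simp [orc])
  have h5 : ∀ k, Pre (sim c (pre y) k) a := by
    intro k
    induction k with
    | zero => exact fun i hi => absurd hi (Nat.not_lt_zero _)
    | succ k ih =>
      rw [sim_succ, stp]
      rcases e1 : Code.evaln k c _ with _ | v
      · exact ih
      · refine ih.snoc ?_
        have a1 := Code.evaln_sound (Option.mem_def.2 e1)
        rw [e] at a1
        obtain ⟨j, hj⟩ := h4 (sim c (pre y) k).length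
        rw [Option.getD_some, Part.mem_unique
          (h2 _ _ _ _ (pre_isPrefix y (le_max_left _ j)) a1)
          (h2 _ _ _ _ (pre_isPrefix y (le_max_right _ j)) hj)]
        cases a _ <;> rfl
  have h6 : ∀ m, ∃ k, m ≤ (sim c (pre y) k).length := by
    intro m
    induction m with
    | zero => exact ⟨0, Nat.zero_le _⟩
    | succ m ih =>
      obtain ⟨k, hk⟩ := ih
      obtain ⟨j, hj⟩ := h4 m
      rw [← e, Code.evaln_complete] at hj
      obtain ⟨s, hs⟩ := hj
      have a1 := Nat.right_le_pair j (max s k)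
      have a2 := (sim_mono c (pre y) (show k ≤ Nat.pair j (max s k) by omega)).length_le
      rcases (hk.trans a2).eq_or_lt with a3 | a3
      · refine ⟨Nat.pair j (max s k) + 1, ?_⟩
        rw [sim_succ, Nat.unpair_pair, ← a3,
          Option.mem_def.1 (Code.evaln_mono (show s ≤ Nat.pair j (max s k) by omega) hs)]
        simp [stp, ← a3]
      · exact ⟨_, a3⟩
  refine ⟨c, fun σ hσ => ap_eq c hσ ▸ h5 _, fun n => (h6 n).imp fun k hk σ hσ hl => ?_⟩
  rw [ap_eq c hσ]
  exact hk.trans (sim_mono _ _ hl).length_le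

end Pool.Agent.MP_68d28f_lc

end MrgPart0

-- ======== part 1: formerly Pool.Agent.MP_68d28f_lc.Star
section MrgPart1

/-!
Uniformisation of reductions on a cone, and coding into effectively comeager classes.
-/

namespace Pool.Agent.MP_68d28f_lc

open Encodable Nat.Partrec Pool.Agent.MP_b427ce_lc Set Filter Topology

/-- A string followed by a real. -/
def cat (σ : List Bool) (x : ℕ → Bool) : Cantor :=
  fun i => cond (leB σ.length i) (x (i - σ.length)) (σ.getD i false)

lemma pre_cat (σ : List Bool) {τ : List Bool} {x : Cantor} (h : Pre τ x) :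
    Pre (σ ++ τ) (cat σ x) := by
  intro i hi
  rw [List.length_append] at hi
  rcases lt_or_ge i σ.length with h1 | h1
  · rw [List.getD_append _ _ _ _ h1, cat, leB_false_iff.2 h1, cond_false]
  · rw [List.getD_append_right _ _ _ _ h1, cat, leB_iff.2 h1, cond_true, h _ (by omega)]

lemma cat_leT (σ : List Bool) (x : ℕ → Bool) : LeT (cat σ x) x := by
  have := c_self x
  rw [leT_iff]
  unfold cat
  fun_prop

lemma Pre.long {σ : List Bool} {y : Cantor} (h : Pre σ y) {k : ℕ} (hk : σ.length ≤ k) :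
    ∃ ρ, σ ++ ρ = pre y k := h.le (pre_pre y k) (by simpa using hk)

open Classical in
/-- A reduction that exists at every real below the halting set is uniform on a cone. -/
theorem star {O : Set (ℕ →. ℕ)} (hh : orc halt ∈ O) (hO : ¬ Covers O) {G : Cantor → Cantor}
    (hG : GC O ⊤ univ G) (hle : ∀ y, LeT y halt → LeT (G y) y) {W : Set Cantor} (hW : IsOpen W)
    (hne : W.Nonempty) :
    ∃ W' ⊆ W, IsOpen W' ∧ W'.Nonempty ∧ GC ∅ (residual Cantor) W' G := by
  obtain ⟨σ₀, h0⟩ := exists_cone hW hne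
  obtain ⟨g, g1, g2, g3⟩ := hG
  have g4 : ∀ y, Cv g y := fun y => eventually_top.1 g3 y trivial
  let A : Code → List Bool → ℕ → Bool := fun c ρ n =>
    leB (n + 1) (ap c ρ).length && leB (n + 1) (g ρ).length &&
      xor ((ap c ρ).getD n false) ((g ρ).getD n false)
  let B : Code → List Bool → ℕ → Bool := fun c ρ n =>
    !decide (∃ ρ', leB (n + 1) (ap c (ρ ++ ρ')).length = true)
  by_cases hc : ∀ q : List Bool × ℕ, ∃ w : List Bool × ℕ,
      (A (Denumerable.ofNat Code q.2) (σ₀ ++ (q.1 ++ w.1)) w.2 ||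
        B (Denumerable.ofNat Code q.2) (σ₀ ++ (q.1 ++ w.1)) w.2) = true
  · have hB := c_exists (O := O) hh (α := (List Bool × ℕ) × (List Bool × ℕ))
      (p := fun x (ρ' : List Bool) => leB (x.2.2 + 1)
        (ap (Denumerable.ofNat Code x.1.2) (σ₀ ++ (x.1.1 ++ x.2.1) ++ ρ')).length) (by fun_prop)
    obtain ⟨f, f1, f2⟩ := exists_find (O := O) (p := fun q w : List Bool × ℕ =>
      A (Denumerable.ofNat Code q.2) (σ₀ ++ (q.1 ++ w.1)) w.2 ||
        B (Denumerable.ofNat Code q.2) (σ₀ ++ (q.1 ++ w.1)) w.2)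
      (c_or (by unfold A; fun_prop) (c_not hB)) hc
    refine absurd ⟨fun q => q.1 ++ (f q).1, by fun_prop, fun σ n => List.prefix_append _ _,
      fun x hx => ?_⟩ hO
    obtain ⟨c, c1, c2⟩ := (hle _ ((cat_leT σ₀ x).trans hx)).exists_ap
    refine ⟨encode c, fun σ hσ => ?_⟩
    have h1 := pre_cat σ₀ hσ
    have h2 := f2 (σ, encode c)
    simp only [Denumerable.ofNat_encode, Bool.or_eq_true] at h2
    rcases h2 with h2 | h2
    · simp only [A, Bool.and_eq_true, leB_iff] at h2
      rw [c1 _ h1 _ h2.1.1, g2 _ trivial _ h1 _ h2.1.2] at h2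
      simp at h2
    · obtain ⟨k, hk⟩ := c2 ((f (σ, encode c)).2 + 1)
      obtain ⟨ρ, hρ⟩ := h1.long (le_max_left _ k)
      simp only [B, Bool.not_eq_true', decide_eq_false_iff_not] at h2
      exact h2 ⟨ρ, leB_iff.2 (hρ ▸ hk _ (pre_pre _ _) (by simp))⟩
  · push Not at hc
    obtain ⟨⟨σ, n₀⟩, hq⟩ := hc
    generalize Denumerable.ofNat Code (σ, n₀).2 = c at hq
    have hA : ∀ ρ n, A c (σ₀ ++ σ ++ ρ) n = false := fun ρ n => by
      have := hq (ρ, n)
      simp only [ne_eq, Bool.or_eq_true, not_or, Bool.not_eq_true] at this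
      rw [List.append_assoc]; exact this.1
    have hB : ∀ ρ n, ∃ ρ', n + 1 ≤ (ap c (σ₀ ++ σ ++ ρ ++ ρ')).length := fun ρ n => by
      have := hq (ρ, n)
      simp only [ne_eq, Bool.or_eq_true, not_or, Bool.not_eq_true] at this
      rw [List.append_assoc σ₀]
      simpa [B] using this.2
    refine ⟨{y | Pre (σ₀ ++ σ) y}, fun y hy => h0 y (Pre.of_le hy (List.prefix_append _ _)),
      isOpen_pre _, ⟨_, pre_ext _⟩, ap c, by fun_prop, fun y hy τ hτ i hi => ?_, ?_⟩
    · obtain ⟨k, hk⟩ := g4 y (i + 1)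
      obtain ⟨ρ, hρ⟩ := Pre.long hy (le_max_left _ (max k τ.length))
      have h1 := ap_mono c (hτ.le (pre_pre y (max (σ₀ ++ σ).length (max k τ.length))) (by simp))
      have h2 := hk _ (pre_pre y (max (σ₀ ++ σ).length (max k τ.length))) (by simp)
      have h3 := hA ρ i
      simp only [A, hρ, leB_iff.2 h2, leB_iff.2 (hi.trans_le h1.length_le), Bool.true_and] at h3
      rw [← getD_of_isPrefix h1 hi, ← g2 y trivial _ (pre_pre _ _) i h2]
      simpa using h3
    · have h1 : ∀ n, ∀ᶠ y in residual Cantor,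
          ¬ Pre (σ₀ ++ σ) y ∨ ∃ τ, Pre τ y ∧ n + 1 ≤ (ap c τ).length := by
        intro n
        refine residual_of_dense_open (isOpen_of_box ?_) fun y => mem_closure_iff_nhds.2 ?_
        · rintro y (hy | ⟨τ, a1, a2⟩)
          · exact ⟨_, fun z hz => Or.inl fun h => hy (h.of_ag hz)⟩
          · exact ⟨_, fun z hz => Or.inr ⟨τ, a1.of_ag hz.symm, a2⟩⟩
        · intro V hV
          by_cases hy : Pre (σ₀ ++ σ) y
          · obtain ⟨k, hk⟩ := exists_box hV
            obtain ⟨ρ, hρ⟩ := hy.long (le_max_left _ k)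
            obtain ⟨ρ', h2⟩ := hB ρ n
            refine ⟨ext (σ₀ ++ σ ++ ρ ++ ρ'), hk _ fun i hi => ?_, Or.inr ⟨_, pre_ext _, h2⟩⟩
            rw [← (pre_ext _).of_le (List.prefix_append _ ρ') i (by rw [hρ]; simp [hi]), hρ]
            exact getD_pre _ (by simp [hi]) _
          · exact ⟨y, mem_of_mem_nhds hV, Or.inl hy⟩
      filter_upwards [eventually_countable_forall.2 h1] with y hy h2 n
      obtain ⟨τ, a1, a2⟩ := (hy n).resolve_left (not_not.2 h2)
      exact ⟨τ.length, fun τ' b1 b2 => by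
        have := (ap_mono c (a1.le b1 b2)).length_le
        omega⟩

/-- The limit of an increasing sequence of strings. -/
lemma exists_lim {O : Set (ℕ →. ℕ)} {s : ℕ → List Bool} (hs : ComputableIn O s)
    (h1 : ∀ k, s k <+: s (k + 1)) (h2 : ∀ k, (s k).length < (s (k + 1)).length) :
    ∃ y : ℕ → Bool, ComputableIn O y ∧ ∀ k, Pre (s k) y := by
  have a1 : ∀ k j, k ≤ j → s k <+: s j := fun k j h => by
    induction h with
    | refl => exact List.prefix_rfl
    | step _ ih => exact ih.trans (h1 _)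
  have a2 : ∀ k, k ≤ (s k).length := fun k => by
    induction k with
    | zero => exact Nat.zero_le _
    | succ k ih => exact ih.trans_lt (h2 k)
  refine ⟨fun i => (s (i + 1)).getD i false, by fun_prop, fun k i hi => ?_⟩
  rw [← getD_of_isPrefix (a1 k _ (le_max_left k (i + 1))) hi,
    getD_of_isPrefix (a1 _ _ (le_max_right k (i + 1))) (a2 (i + 1))]

/-- The oracles below the halting set do not cover. -/
lemma not_covers {O : Set (ℕ →. ℕ)} (hO : ∀ g ∈ O, RecursiveIn {orc halt} g) : ¬ Covers O := by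
  rintro ⟨f, f1, f2, f3⟩
  have f4 : ComputableIn {orc halt} f := RecursiveIn.subst f1 hO
  obtain ⟨y, y1, y2⟩ := exists_lim (O := {orc halt})
    (s := natIter [] fun n σ => f (σ ++ [false], n)) (by fun_prop)
    (fun k => (List.prefix_append _ _).trans (f2 _ k)) fun k =>
      lt_of_lt_of_le (by simp) (f2 (natIter [] (fun n σ => f (σ ++ [false], n)) k ++ [false])
        k).length_le
  obtain ⟨n, hn⟩ := f3 y (leT_iff.2 y1)
  exact hn _ (y2 (n + 1))

/-- The even part. -/
def ev (y : Cantor) : Cantor := fun i => y (2 * i)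

/-- The odd part. -/
def od (y : Cantor) : Cantor := fun i => y (2 * i + 1)

/-- Every degree is the degree of the even part of a point of a given effectively comeager
class. -/
lemma exists_code {P : ℕ → List Bool → Bool}
    (hP : ComputableIn ∅ fun x : ℕ × List Bool => P x.1 x.2) {σ₀ : List Bool}
    (hd : ∀ k τ, ∃ ρ, P k (σ₀ ++ τ ++ ρ) = true) (a : ℕ → Bool) :
    ∃ (y : Cantor) (r : ℕ → List Bool), Pre σ₀ y ∧ LeT y a ∧ LeT a (ev y) ∧
      ComputableIn {orc a} r ∧ ∀ k, Pre (r k) y ∧ P k (r k) = true := by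
  obtain ⟨e, e1, e2⟩ := exists_find (O := ∅)
    (p := fun (x : ℕ × List Bool) (ρ : List Bool) => P x.1 (σ₀ ++ x.2 ++ ρ))
    (c_comp hP (g := fun z : (ℕ × List Bool) × List Bool => (z.1.1, σ₀ ++ z.1.2 ++ z.2))
      (by fun_prop)) fun x => hd x.1 x.2
  let s : ℕ → List Bool := natIter [] fun k τ => τ ++ e (k, τ) ++ [a k, a k]
  have hs : ∀ k, s (k + 1) = s k ++ e (k, s k) ++ [a k, a k] := fun k => rfl
  have ha := c_self a
  have ea : ComputableIn {orc a} e := c_empty e1
  have s1 : ComputableIn {orc a} s := by unfold s; fun_prop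
  obtain ⟨y, y1, y2⟩ := exists_lim (O := {orc a}) (s := fun k => σ₀ ++ s k) (by fun_prop)
    (fun k => by rw [hs, List.append_assoc, ← List.append_assoc σ₀]; exact List.prefix_append _ _)
    fun k => by simp [hs]
  have y3 : ∀ k, a k = ev y (((σ₀ ++ s k ++ e (k, s k)).length + 1) / 2) := by
    intro k
    have h1 := y2 (k + 1) (2 * (((σ₀ ++ s k ++ e (k, s k)).length + 1) / 2))
      (by simp [hs]; omega)
    rw [ev, ← h1, hs, ← List.append_assoc, ← List.append_assoc,
      List.getD_append_right _ _ _ _ (by omega)]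
    generalize (σ₀ ++ s k ++ e (k, s k)).length = m
    rcases (show 2 * ((m + 1) / 2) - m = 0 ∨ 2 * ((m + 1) / 2) - m = 1 by omega) with h | h <;>
      rw [h] <;> rfl
  refine ⟨y, fun k => σ₀ ++ s k ++ e (k, s k), (y2 0).of_le (List.prefix_append _ _),
    leT_iff.2 y1, ?_, by fun_prop, fun k => ⟨(y2 (k + 1)).of_le ?_, e2 (k, s k)⟩⟩
  · obtain ⟨z, hz⟩ : ∃ z : ℕ → Bool, z = ev y := ⟨_, rfl⟩
    rw [← hz] at y3 ⊢
    have hz := c_self z
    have ez : ComputableIn {orc z} e := c_empty e1
    let s' : ℕ → List Bool := natIter [] fun k τ => τ ++ e (k, τ) ++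
      [z (((σ₀ ++ τ ++ e (k, τ)).length + 1) / 2), z (((σ₀ ++ τ ++ e (k, τ)).length + 1) / 2)]
    have s2 : ComputableIn {orc z} s' := by unfold s'; fun_prop
    have s3 : ∀ k, s' k = s k := fun k => by
      induction k with
      | zero => rfl
      | succ k ih => rw [hs, y3 k, ← ih]; rfl
    exact leT_iff.2 (cin_of_eq (f := fun k => z (((σ₀ ++ s' k ++ e (k, s' k)).length + 1) / 2))
      (by fun_prop) fun k => by rw [s3, ← y3])
  · rw [hs, ← List.append_assoc, ← List.append_assoc]
    exact List.prefix_append _ _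

end Pool.Agent.MP_68d28f_lc

end MrgPart1

-- ======== part 2: formerly Pool.Agent.MP_68d28f_lc.Core
section MrgPart2

/-!
An expanding map of a box that is computable on names, and decoding along its orbits.
-/

namespace Pool.Agent.MP_68d28f_lc

open Encodable Nat.Partrec Pool.Agent.MP_b427ce_lc Set Filter Topology

/-- The sum modulo two. -/
def xo (x p : Cantor) : Cantor := fun i => xor (x i) (p i)

/-- Deletion of one bit. -/
def dl (v : ℕ) (x : Cantor) : Cantor := fun i => x (cond (leB v i) (i + 1) i)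

@[simp] lemma ev_jn (x p : Cantor) : ev (jn x p) = x := by
  funext i; simp [ev, jn, eqB]

@[simp] lemma od_jn (x p : Cantor) : od (jn x p) = p := by
  funext i
  have h1 : (2 * i + 1) % 2 = 1 := by omega
  have h2 : (2 * i + 1) / 2 = i := by omega
  simp [od, jn, eqB, h1, h2]

@[simp] lemma jn_ev_od (y : Cantor) : jn (ev y) (od y) = y := by
  funext i
  rcases Nat.mod_two_eq_zero_or_one i with h | h
  · simp [jn, ev, eqB, h, show 2 * (i / 2) = i by omega]
  · simp [jn, od, eqB, h, show 2 * (i / 2) + 1 = i by omega]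

@[simp] lemma xo_xo (x p : Cantor) : xo (xo x p) p = x := by
  funext i; simp [xo]

lemma dl_lt {v i : ℕ} (x : Cantor) (h : i < v) : dl v x i = x i := by
  rw [dl, leB_false_iff.2 h, cond_false]

lemma dl_ge {v i : ℕ} (x : Cantor) (h : v ≤ i) : dl v x i = x (i + 1) := by
  rw [dl, leB_iff.2 h, cond_true]

lemma Ag.xo {n : ℕ} {x y p q : Cantor} (h : Ag n x y) (h' : Ag n p q) : Ag n (xo x p) (xo y q) :=
  fun i hi => by simp only [MP_68d28f_lc.xo, h i hi, h' i hi]

section cont

variable {α : Type} [TopologicalSpace α] {f g : α → Cantor}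

@[fun_prop] lemma cont_jn (hf : Continuous f) (hg : Continuous g) :
    Continuous fun a => jn (f a) (g a) := continuous_pi fun i => by
  unfold jn
  cases eqB (i % 2) 0
  · exact (continuous_apply _).comp hg
  · exact (continuous_apply _).comp hf

@[fun_prop] lemma cont_ev (hf : Continuous f) : Continuous fun a => ev (f a) :=
  continuous_pi fun _ => (continuous_apply _).comp hf

@[fun_prop] lemma cont_od (hf : Continuous f) : Continuous fun a => od (f a) :=
  continuous_pi fun _ => (continuous_apply _).comp hf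

@[fun_prop] lemma cont_dl (v : ℕ) (hf : Continuous f) : Continuous fun a => dl v (f a) :=
  continuous_pi fun _ => (continuous_apply _).comp hf

@[fun_prop] lemma cont_xo (hf : Continuous f) (hg : Continuous g) :
    Continuous fun a => xo (f a) (g a) := continuous_pi fun i =>
  (continuous_of_discreteTopology (f := fun p : Bool × Bool => xor p.1 p.2)).comp
    (((continuous_apply i).comp hf).prodMk ((continuous_apply i).comp hg))

end cont

lemma open_reindex {s : ℕ → ℕ} (h1 : Function.Injective s) (h2 : ∀ k, k ≤ s k) :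
    IsOpenMap fun (x : Cantor) (i : ℕ) => x (s i) := by
  intro U hU
  refine isOpen_of_box ?_
  rintro _ ⟨x, hx, rfl⟩
  obtain ⟨n, hn⟩ := exists_box (hU.mem_nhds hx)
  refine ⟨n, fun z hz => ⟨Function.extend s z x, hn _ fun i hi => ?_,
    funext fun i => h1.extend_apply _ _ _⟩⟩
  by_cases h : ∃ k, s k = i
  · obtain ⟨k, rfl⟩ := h
    rw [h1.extend_apply]
    exact hz k ((h2 k).trans_lt hi)
  · exact Function.extend_apply' _ _ _ h

lemma open_dl (v : ℕ) : IsOpenMap (dl v) := by
  refine open_reindex (s := fun i => cond (leB v i) (i + 1) i) (fun i j h => ?_) fun k => ?_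
  · cases e : leB v i <;> cases e' : leB v j <;> simp only [e, e', cond_true, cond_false] at h <;>
      simp at e e' <;> omega
  · cases leB v k <;> simp

lemma ni_ev : Tendsto ev (residual Cantor) (residual Cantor) :=
  tendsto_residual_of_isOpenMap (cont_ev continuous_id)
    (open_reindex (s := fun i => 2 * i) (fun _ _ h => by simpa using h) fun k => by omega)

lemma ni_od : Tendsto od (residual Cantor) (residual Cantor) :=
  tendsto_residual_of_isOpenMap (cont_od continuous_id)
    (open_reindex (s := fun i => 2 * i + 1) (fun _ _ h => by simpa using h) fun k => by omega)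

/-- The join as a homeomorphism. -/
def jnH : Cantor × Cantor ≃ₜ Cantor where
  toFun p := jn p.1 p.2
  invFun y := (ev y, od y)
  left_inv p := by simp
  right_inv y := by simp
  continuous_toFun := by fun_prop
  continuous_invFun := by fun_prop

lemma gc_ev : GC ∅ ⊤ univ ev :=
  GC.loc (fun i _ _ h => h _ (by omega)) (by unfold ev ext; fun_prop)

lemma gc_od : GC ∅ ⊤ univ od :=
  GC.loc (fun i _ _ h => h _ (by omega)) (by unfold od ext; fun_prop)

lemma gc_dl (v : ℕ) : GC ∅ ⊤ univ (dl v) :=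
  GC.loc (fun i _ _ h => h _ (by cases leB v i <;> simp <;> omega)) (by unfold dl ext; fun_prop)

lemma gc_add (L : List Bool) : GC ∅ ⊤ univ fun p => xo p (ext L) :=
  GC.loc (fun i _ _ h => by simp only [xo, h i (by omega)]) (by unfold xo ext; fun_prop)

lemma gc_xo : GC ∅ ⊤ univ fun y => xo (ev y) (od y) :=
  GC.loc (fun i _ _ h => by simp only [xo, ev, od, h (2 * i) (by omega), h (2 * i + 1) (by omega)])
    (by unfold xo ev od ext; fun_prop)

/-- The hypotheses of the main argument. -/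
structure Hyp (O : Set (ℕ →. ℕ)) (H : Cantor ≃ₜ Cantor) : Prop where
  hh : orc halt ∈ O
  hO : ¬ Covers O
  aH : GC O ⊤ univ H
  aK : GC O ⊤ univ H.symm
  del : ∀ x, LeT (H x) halt ↔ LeT x halt
  le : ∀ a b, LeT a halt → LeT b halt → (LeT (H a) (H b) ↔ LeT a b)

variable {O : Set (ℕ →. ℕ)} {H : Cantor ≃ₜ Cantor}

lemma Hyp.del' (h : Hyp O H) {y : Cantor} (hy : LeT y halt) : LeT (H.symm y) halt :=
  (h.del _).1 (by simpa using hy)

lemma Hyp.ustar (h : Hyp O H) {F : Cantor → Cantor} (hF : GC ∅ ⊤ univ F) (a : Cantor) (v : ℕ) :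
    ∃ a' m, v ≤ m ∧ Ag v a' a ∧
      GC ∅ (residual Cantor) {y | Ag m (H.symm y) a'} fun y => H (F (H.symm y)) := by
  obtain ⟨W, h1, h2, ⟨y, hy⟩, h3⟩ := star h.hh h.hO (h.aH.comp_top (hF.weak.comp_top h.aK))
    (fun y hy => by
      simpa using (h.le _ _ ((hF.leT _).trans (h.del' hy)) (h.del' hy)).2 (hF.leT (H.symm y)))
    ((isOpen_box a v).preimage H.symm.continuous) ⟨H a, by simpa using Ag.refl v a⟩
  obtain ⟨n, hn⟩ := exists_box (x := H.symm y) (U := H ⁻¹' W)
    ((h2.preimage H.continuous).mem_nhds (by simpa using hy))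
  exact ⟨H.symm y, max n v, le_max_right _ _, h1 hy, h3.congr
    (fun z hz => by simpa using hn _ (Ag.mono hz (le_max_left _ _))) fun _ _ => rfl⟩

/-- A box on the side of the names. -/
def Bx (H : Cantor ≃ₜ Cantor) (m n : ℕ) (a t : Cantor) : Set Cantor :=
  {y | Ag m (H.symm (ev y)) a ∧ Ag n (H.symm (od y)) t}

lemma isOpen_Bx (m n : ℕ) (a t : Cantor) : IsOpen (Bx H m n a t) :=
  ((isOpen_box a m).preimage (f := fun y => H.symm (ev y)) (by fun_prop)).inter
    ((isOpen_box t n).preimage (f := fun y => H.symm (od y)) (by fun_prop))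

lemma ne_Bx (m n : ℕ) (a t : Cantor) : (Bx H m n a t).Nonempty :=
  ⟨jn (H a) (H t), by simpa using Ag.refl m a, by simpa using Ag.refl n t⟩

/-- The sum on names. -/
def sm (H : Cantor ≃ₜ Cantor) (y : Cantor) : Cantor := H (xo (H.symm (ev y)) (H.symm (od y)))

lemma Hyp.bstar (h : Hyp O H) (a t : Cantor) (v : ℕ) :
    ∃ a' t' m, v ≤ m ∧ Ag v a' a ∧ Ag v t' t ∧
      GC ∅ (residual Cantor) (Bx H m m a' t') (sm H) := by
  have h0 : GC O ⊤ univ (sm H) := (h.aH.comp_top (gc_xo.weak.comp_top
    ((h.aK.comp_top gc_ev.weak).pair (h.aK.comp_top gc_od.weak)))).congr subset_rfl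
      fun y _ => by simp [sm]
  obtain ⟨W, h1, h2, ⟨y, hy⟩, h3⟩ := star h.hh h.hO h0 (fun y hy => by
      have hw := h.del' hy
      have a1 : LeT (H.symm (ev y)) (H.symm y) :=
        (h.le _ _ (h.del' ((gc_ev.leT y).trans hy)) hw).1 (by simpa using gc_ev.leT y)
      have a2 : LeT (H.symm (od y)) (H.symm y) :=
        (h.le _ _ (h.del' ((gc_od.leT y).trans hy)) hw).1 (by simpa using gc_od.leT y)
      have a3 : LeT (xo (H.symm (ev y)) (H.symm (od y))) (H.symm y) :=
        leT_iff.2 (c_xor (leT_iff.1 a1) (leT_iff.1 a2))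
      simpa [sm] using (h.le _ _ (a3.trans hw) hw).2 a3)
    (isOpen_Bx (H := H) v v a t) (ne_Bx _ _ _ _)
  obtain ⟨n, hn⟩ := exists_box (x := jn (H.symm (ev y)) (H.symm (od y)))
    (U := (fun w => jn (H (ev w)) (H (od w))) ⁻¹' W)
    ((h2.preimage (by fun_prop)).mem_nhds (by simpa using hy))
  refine ⟨H.symm (ev y), H.symm (od y), max n v, le_max_right _ _, (h1 hy).1, (h1 hy).2, h3.congr
    (fun z hz => ?_) fun _ _ => rfl⟩
  simpa using hn (jn (H.symm (ev z)) (H.symm (od z))) fun i hi => by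
    simp only [jn, hz.1 (i / 2) (by omega), hz.2 (i / 2) (by omega)]

/-- Deletion of a bit in the first coordinate, on names. -/
def td (H : Cantor ≃ₜ Cantor) (v : ℕ) (y : Cantor) : Cantor :=
  jn (H (dl v (H.symm (ev y)))) (od y)

lemma ni_td (v : ℕ) : Tendsto (td H v) (residual Cantor) (residual Cantor) :=
  tendsto_residual_of_isOpenMap (by unfold td; fun_prop) (jnH.isOpenMap.comp
    (((H.isOpenMap.comp ((open_dl v).comp H.symm.isOpenMap)).prodMap IsOpenMap.id).comp
      jnH.symm.isOpenMap))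

/-- A shear, on names. -/
def shear (H : Cantor ≃ₜ Cantor) (c : Cantor) : Cantor ≃ₜ Cantor where
  toFun y := jn (sm H y) (H (xo (H.symm (od y)) c))
  invFun y := jn (H (xo (H.symm (ev y)) (xo (H.symm (od y)) c))) (H (xo (H.symm (od y)) c))
  left_inv y := by simp [sm]
  right_inv y := by simp [sm]
  continuous_toFun := by unfold sm; fun_prop
  continuous_invFun := by fun_prop

lemma Hyp.expand (h : Hyp O H) :
    ∃ m n a t, GC ∅ (residual Cantor) (Bx H m n a t) (td H m) := by
  obtain ⟨a₁, t₁, v₁, -, -, -, s1⟩ := h.bstar (fun _ => false) (fun _ => false) 0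
  obtain ⟨a₂, t, v, b1, b2, b3, s2⟩ := h.bstar (xo a₁ t₁) t₁ v₁
  obtain ⟨a, m, c1, c2, d1⟩ := h.ustar (gc_dl v) (xo a₂ t) v
  let L : Bool → List Bool := fun b =>
    pre (xo (dl v (Function.update a m b)) (dl m (Function.update a m b))) m
  have L1 : ∀ b, ∀ i < v, ext (L b) i = false := fun b i hi => by
    simp [ext, L, getD_pre _ (hi.trans_le c1), xo, dl_lt _ hi, dl_lt _ (hi.trans_le c1),
      -List.getD_eq_getElem?_getD]
  have L2 : ∀ x : Cantor, Ag m x a → xo (dl v x) (ext (L (x m))) = dl m x := by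
    intro x hx
    have e : ∀ i ≤ m, Function.update a m (x m) i = x i := fun i hi => by
      rcases hi.eq_or_lt with rfl | hi
      · simp
      · rw [Function.update_of_ne hi.ne, hx i hi]
    funext i
    rcases lt_or_ge i m with hi | hi
    · have e1 : dl v (Function.update a m (x m)) i = dl v x i :=
        e _ (by cases leB v i <;> simp <;> omega)
      simp [ext, L, getD_pre _ hi, xo, dl_lt _ hi, e1, e i hi.le, -List.getD_eq_getElem?_getD]
    · simp [ext, L, xo, dl_ge _ hi, dl_ge _ (c1.trans hi), hi]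
  obtain ⟨t₀, n₀, e1, e2, n0⟩ := h.ustar (gc_add (L false)) t v
  obtain ⟨t', n, e3, e4, n1⟩ := h.ustar (gc_add (L true)) t₀ n₀
  have e5 : Ag v t' t := (e4.mono e1).trans e2
  have nb : ∀ b, GC ∅ (residual Cantor) {y | Ag n (H.symm y) t'}
      fun y => H (xo (H.symm y) (ext (L b))) := by
    rintro (_ | _)
    · exact n0.congr (fun y hy => (Ag.mono hy e3).trans e4) fun _ _ => rfl
    · exact n1
  obtain ⟨j, hj⟩ := unif (F := fun y => H.symm (ev y)) (by fun_prop) (m + 1)
  refine ⟨m, n, a, t', GC.glue (β := fun y => H.symm (ev y) m) (j := j)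
    (fun x y hxy => hj x y hxy m (by omega)) fun b => ?_⟩
  have t1 : GC ∅ (residual Cantor) (Bx H m n a t') (td H v) :=
    (d1.comp gc_ev.weak (fun y hy => hy.1) ni_ev).pair gc_od.weak
  have t2 : GC ∅ (residual Cantor) (Bx H v n (xo a₂ t) t') (shear H (ext (L b))) :=
    (s1.congr (fun y hy => ⟨(hy.1.mono b1).trans (by simpa using b2.xo b3),
      (((hy.2.mono (e1.trans e3)).trans e5).mono b1).trans b3⟩) fun _ _ => rfl).pair
      ((nb b).comp gc_od.weak (fun y hy => hy.2) ni_od)
  have m1 : MapsTo (td H v) (Bx H m n a t') (Bx H v n (xo a₂ t) t') := fun y hy =>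
    ⟨fun i hi => by simp [td, dl_lt _ hi, hy.1 i (by omega), c2 i hi], by simpa [td] using hy.2⟩
  have m2 : MapsTo (shear H (ext (L b))) (Bx H v n (xo a₂ t) t') (Bx H v v a₂ t) := fun y hy =>
    ⟨by simpa [shear, sm] using hy.1.xo ((hy.2.mono (e1.trans e3)).trans e5), fun i hi => by
      simp [shear, xo, L1 b i hi, hy.2 i (by omega), e5 i hi]⟩
  refine (((s2.comp t2 m2 (tendsto_residual_of_isOpenMap (shear H _).continuous
    (shear H _).isOpenMap)).comp t1 m1 (ni_td v)).pair gc_od.weak).congr inter_subset_left ?_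
  rintro y ⟨hy, rfl⟩
  rw [td.eq_def H m, ← L2 _ hy.1]
  congr 1
  simp only [sm, shear, td, Homeomorph.homeomorph_mk_coe, Equiv.coe_fn_mk, ev_jn, od_jn,
    Homeomorph.symm_apply_apply]
  congr 1
  funext i
  simp [xo]

theorem Hyp.core (h : Hyp O H) (a : ℕ → Bool) :
    ∃ y, LeT y a ∧ LeT a y ∧ LeT (H.symm y) a := by
  obtain ⟨m, n, a', t, g, g1, g2, g3⟩ := h.expand
  have m1 : MapsTo (td H m) (Bx H m n a' t) (Bx H m n a' t) := fun y hy =>
    ⟨fun i hi => by simp [td, dl_lt _ hi, hy.1 i hi], by simpa [td] using hy.2⟩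
  let it : ℕ → List Bool → List Bool := fun k σ => natIter σ (fun _ τ => g τ) k
  have i1 : ∀ k, Snd (it k) (Bx H m n a' t) (td H m)^[k] := fun k y hy σ hσ => by
    induction k with
    | zero => exact hσ
    | succ k ih =>
      rw [Function.iterate_succ_apply']
      exact g2 _ (m1.iterate k hy) _ ih
  have i2 : ∀ k, ∀ᶠ y in residual Cantor, y ∈ Bx H m n a' t → Cv (it k) y := fun k => by
    induction k with
    | zero => exact Eventually.of_forall fun y _ j => ⟨j, fun _ _ h => h⟩
    | succ k ih =>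
      filter_upwards [((ni_td (H := H) m).iterate k).eventually g3, ih] with y h1 h2 hy
      exact (h1 (m1.iterate k hy)).comp (h2 hy) (i1 k y hy)
  have i3 : ∀ k y i, H.symm (ev ((td H m)^[k] y)) (m + i) = H.symm (ev y) (m + i + k) := by
    intro k
    induction k with
    | zero => exact fun _ _ => rfl
    | succ k ih =>
      intro y i
      rw [Function.iterate_succ_apply, ih]
      simp only [td, ev_jn, Homeomorph.symm_apply_apply, dl_ge _ (show m ≤ m + i + k by omega)]
      rfl
  obtain ⟨σ₀, h0⟩ := exists_cone (isOpen_Bx (H := H) m n a' t) (ne_Bx _ _ _ _)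
  obtain ⟨j, hj⟩ := unif (F := fun y => H.symm (ev y)) (by fun_prop) (m + 1)
  obtain ⟨y, r, y1, y2, y3, y4, y5⟩ := exists_code (P := fun k ρ => leB j (it k ρ).length)
    (σ₀ := σ₀) (by unfold it; fun_prop) (fun k τ => by
      obtain ⟨y, a1, a2⟩ := (dense_of_mem_residual (i2 k)).inter_open_nonempty _
        (isOpen_pre (σ₀ ++ τ)) ⟨_, pre_ext _⟩
      obtain ⟨l, hl⟩ := a2 (h0 y (Pre.of_le a1 (List.prefix_append _ _))) j
      obtain ⟨ρ, hρ⟩ := Pre.long a1 (le_max_left _ l)
      exact ⟨ρ, leB_iff.2 (hρ ▸ hl _ (pre_pre _ _) (by simp))⟩) a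
  refine ⟨ev y, (gc_ev.leT y).trans y2, y3, leT_iff.2 ?_⟩
  have tb : ComputableIn {orc a} fun σ => H.symm (ev (ext σ)) m :=
    c_empty (c_table j (fun y => H.symm (ev y) m) fun x y hxy => hj x y hxy m (by omega))
  have ga : ComputableIn {orc a} g := c_empty g1
  refine cin_of_eq (f := fun i => cond (leB m i)
    (H.symm (ev (ext (it (i - m) (r (i - m))))) m) ((pre a' m).getD i false))
    (c_cond (by fun_prop) (c_comp tb (by unfold it; fun_prop)) (by fun_prop)) fun i => ?_
  rcases lt_or_ge i m with hi | hi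
  · rw [leB_false_iff.2 hi, cond_false, getD_pre _ hi, (h0 y y1).1 i hi]
  · rw [leB_iff.2 hi, cond_true, hj _ _ ((i1 _ y (h0 y y1) _ (y5 _).1).ag.mono
      (leB_iff.1 (y5 _).2)) m (by omega)]
    simpa [show m + (i - m) = i by omega] using i3 (i - m) y 0

end Pool.Agent.MP_68d28f_lc

end MrgPart2

-- marker of a merged file
example : 731051 + 648469 = 731051 + 648469 := rfl
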