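import Pool.Agent.MP_68d28f_lc.Core

/-!
Approximations from the code of a homeomorphism, and the main theorem.
-/

namespace Pool.Agent.MP_68d28f_lc

open Encodable Nat.Partrec Pool.Agent.MP_b427ce_lc Set Filter Topology

lemma gc_of_rel {O : Set (ℕ →. ℕ)} {G : Cantor → Cantor} {R : List Bool → List Bool → Bool}
    (hR : ComputableIn O fun p : List Bool × List Bool => R p.1 p.2)
    (h1 : ∀ σ τ y, R σ τ = true → Pre σ y → Pre τ (G y))
    (h2 : ∀ n, ∃ k, ∀ σ y, Pre σ y → k ≤ σ.length → ∀ i ≤ n, R σ (pre (G y) i) = true) :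
    GC O ⊤ univ G := by
  let it : List Bool → ℕ → List Bool := fun σ => natIter [] fun _ o =>
    cond (R σ (o ++ [true])) (o ++ [true]) (cond (R σ (o ++ [false])) (o ++ [false]) o)
  have e : ∀ σ i, it σ (i + 1) = cond (R σ (it σ i ++ [true])) (it σ i ++ [true])
      (cond (R σ (it σ i ++ [false])) (it σ i ++ [false]) (it σ i)) := fun _ _ => rfl
  have hb : ∀ b, ComputableIn O fun p : List Bool × (ℕ × List Bool) => R p.1 (p.2.2 ++ [b]) :=
    fun b => c_comp hR (g := fun p : List Bool × (ℕ × List Bool) => (p.1, p.2.2 ++ [b]))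
      (by fun_prop)
  refine ⟨fun σ => it σ σ.length, c_natIter (by fun_prop) (c_const _)
    (c_cond (hb _) (by fun_prop) (c_cond (hb _) (by fun_prop) (by fun_prop))),
    fun y _ σ hσ => ?_, Eventually.of_forall fun y _ n => ?_⟩
  · beta_reduce
    induction σ.length with
    | zero => exact fun i hi => absurd hi (Nat.not_lt_zero _)
    | succ i ih =>
      rw [e]
      cases e1 : R σ (it σ i ++ [true])
      · cases e2 : R σ (it σ i ++ [false])
        · exact ih
        · exact h1 _ _ _ e2 hσ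
      · exact h1 _ _ _ e1 hσ
  · obtain ⟨k, hk⟩ := h2 n
    refine ⟨max k n, fun σ hσ hl => ?_⟩
    have a1 : ∀ i ≤ n, it σ i = pre (G y) i := by
      intro i
      induction i with
      | zero => exact fun _ => rfl
      | succ i ih =>
        intro hi
        have a2 := hk σ y hσ (by omega) _ hi
        rw [e, ih (by omega)]
        rw [pre_succ] at a2 ⊢
        cases e1 : G y i
        · rw [e1] at a2
          cases e2 : R σ (pre (G y) i ++ [true])
          · simp [a2]
          · simpa [e1] using h1 _ _ _ e2 hσ i (by simp)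
        · rw [e1] at a2
          simp [a2]
    have a3 : ∀ j, n ≤ j → n ≤ (it σ j).length := fun j hj => by
      induction hj with
      | refl => simp [a1 n le_rfl]
      | step _ ih =>
        rw [e]
        cases R σ (_ ++ [true]) <;> cases R σ (_ ++ [false]) <;> simp <;> omega
    exact a3 _ (by omega)

lemma code_iff (F : Cantor → Cantor) (σ τ : List Bool) :
    code F (encode (σ, τ)) = true ↔ ∀ x, Pre σ x → Pre τ (F x) := by
  simp only [code, decide_eq_true_eq]
  refine ⟨fun ⟨σ', τ', h1, h2⟩ => ?_, fun h => ⟨σ, τ, rfl, h⟩⟩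
  obtain ⟨rfl, rfl⟩ := Prod.mk.inj (encode_injective h1)
  exact h2

lemma code_of_ag {F : Cantor → Cantor} {n k : ℕ} (hk : ∀ x y, Ag k x y → Ag n (F x) (F y))
    {σ : List Bool} {y : Cantor} (hσ : Pre σ y) (hl : k ≤ σ.length) {i : ℕ} (hi : i ≤ n) :
    code F (encode (σ, pre (F y) i)) = true :=
  (code_iff _ _ _).2 fun x hx => (pre_pre _ _).of_ag
    ((hk y x ((hσ.ag.symm.trans hx.ag).mono hl)).mono (by simpa using hi))

lemma gc_code {O : Set (ℕ →. ℕ)} {F : Cantor → Cantor} (hF : Continuous F)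
    (hO : orc (code F) ∈ O) : GC O ⊤ univ F :=
  gc_of_rel (R := fun σ τ => code F (encode (σ, τ))) (c_comp (c_mem hO) (by fun_prop))
    (fun σ τ y h => (code_iff F σ τ).1 h y) fun n =>
      (unif hF n).imp fun _ hk _ _ h1 h2 _ hi => code_of_ag hk h1 h2 hi

lemma gc_code_symm {O : Set (ℕ →. ℕ)} (H : Cantor ≃ₜ Cantor) (hO : orc (code H) ∈ O) :
    GC O ⊤ univ H.symm := by
  obtain ⟨c, hc⟩ : ∃ c : ℕ → Bool, c = code H := ⟨_, rfl⟩
  have c1 : ComputableIn O c := hc ▸ c_mem hO
  refine gc_of_rel (R := fun σ τ => (List.range (2 ^ σ.length)).all fun w =>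
    eqB ((pre (Nat.testBit w) σ.length).take τ.length) τ || (List.range σ.length).any fun i =>
      c (encode (pre (Nat.testBit w) σ.length, σ.take i ++ [!σ.getD i false])))
    (by fun_prop) (fun σ τ y h hσ => ?_) fun n => ?_
  · have e : pre (Nat.testBit (Nat.ofBits fun i : Fin σ.length => H.symm y i)) σ.length =
        pre (H.symm y) σ.length := pre_congr fun j hj => Nat.testBit_ofBits_lt _ _ hj
    have h1 := List.all_eq_true.1 h _ (List.mem_range.2
      (Nat.ofBits_lt_two_pow fun i : Fin σ.length => H.symm y i))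
    rw [e, Bool.or_eq_true, eqB_iff, List.any_eq_true] at h1
    rcases h1 with h1 | ⟨i, h1, h2⟩
    · exact (pre_pre _ σ.length).of_le (h1 ▸ List.take_prefix _ _)
    · rw [List.mem_range] at h1
      have h3 := (code_iff _ _ _).1 (hc ▸ h2) _ (pre_pre _ _) i (by simp; omega)
      rw [List.getD_append_right _ _ _ _ (by simp), H.apply_symm_apply, hσ i h1] at h3
      simp [min_eq_left h1.le] at h3
  · obtain ⟨j, hj⟩ := unif H.symm.continuous n
    obtain ⟨k, hk⟩ := unif H.continuous j
    refine ⟨max (max k j) n, fun σ y hσ hl i hi => List.all_eq_true.2 fun w _ => ?_⟩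
    rw [Bool.or_eq_true, eqB_iff, List.any_eq_true]
    by_cases h : Ag j (H (Nat.testBit w)) y
    · left
      rw [length_pre, take_pre _ (by omega)]
      exact pre_congr fun l hl => by simpa using hj _ _ h l (by omega)
    · have h1 : ∃ l, l < j ∧ H (Nat.testBit w) l ≠ y l := by simpa [Ag] using h
      have h2 := Nat.find_spec h1
      refine Or.inr ⟨Nat.find h1, List.mem_range.2 (by omega), ?_⟩
      have h3 := code_of_ag hk (pre_pre (Nat.testBit w) σ.length) (by simp; omega)
        (i := Nat.find h1 + 1) (by omega)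
      rw [pre_succ, pre_congr (a := H (Nat.testBit w)) (b := y) fun l hl => by
        simpa [hl.trans h2.1] using Nat.find_min h1 hl] at h3
      rw [hσ.take (by omega), hσ _ (by omega), hc, ← Bool.eq_not_iff.2 h2.2]
      exact h3

lemma deg_le {a b : Cantor} : deg a ≤ deg b ↔ LeT a b := Iff.rfl

/-- The degree of a real below the halting set. -/
def dg (a : Cantor) (h : LeT a halt) : D2 := ⟨deg a, ⟨a, rfl⟩, deg_le.2 h⟩

variable {H : Cantor ≃ₜ Cantor} {π : D2 ≃o D2}

lemma Induces.symm (h : Induces H π) : Induces H.symm π.symm := by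
  have h1 : ∀ y, LeT (H.symm y) halt ↔ LeT y halt := fun y => by simpa using (h.1 (H.symm y)).symm
  refine ⟨h1, fun d y hd => ?_⟩
  have h2 : π (dg (H.symm y) ((h1 y).2 (deg_le.1 (hd ▸ d.2.2)))) = d :=
    Subtype.ext (by rw [h.2 _ (H.symm y) rfl, H.apply_symm_apply, hd])
  rw [← h2, π.symm_apply_apply]
  rfl

lemma Induces.le (h : Induces H π) (a b : Cantor) (ha : LeT a halt) (hb : LeT b halt) :
    LeT (H a) (H b) ↔ LeT a b := by
  rw [← deg_le, ← h.2 (dg a ha) a rfl, ← h.2 (dg b hb) b rfl]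
  exact π.le_iff_le

lemma Induces.symm_le (h : Induces H π) {O : Set (ℕ →. ℕ)} (hh : orc halt ∈ O) (hO : ¬ Covers O)
    (aH : GC O ⊤ univ H) (aK : GC O ⊤ univ H.symm) (d : D2) : π.symm d ≤ d := by
  obtain ⟨a, ha⟩ := d.2.1
  obtain ⟨y, h1, h2, h3⟩ := Hyp.core ⟨hh, hO, aH, aK, h.1, h.le⟩ a
  change (π.symm d).1 ≤ d.1
  rw [h.symm.2 d y (ha.trans (le_antisymm (deg_le.2 h2) (deg_le.2 h1))), ha]
  exact deg_le.2 h3

theorem Induces.eq_refl (h : Induces H π) (hO : ¬ Covers {orc (code H), orc halt}) :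
    π = OrderIso.refl D2 := by
  have aH := gc_code (O := {orc (code H), orc halt}) H.continuous (Or.inl rfl)
  have aK := gc_code_symm (O := {orc (code H), orc halt}) H (Or.inl rfl)
  refine OrderIso.ext (funext fun d => le_antisymm
    (h.symm.symm_le (Or.inr rfl) hO aK aH d) ?_)
  simpa using h.symm_le (Or.inr rfl) hO aH aK (π d)

end Pool.Agent.MP_68d28f_lc
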